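import Pool.Agent.Q265.IP.Bohr
import Pool.Agent.Q265.IP.Count

set_option autoImplicit false

/-!
# MP_23b914_co: IP sets need not be `(𝒟, ℬ)`-expanding

Q1 is answered in the negative: there are a sequence `x` of positive integers and a set `A` of
upper Banach density at least `1/4` such that `A - A + FS(x)` contains no Bohr set.
-/

namespace Pool.Agent.Results.MP_23b914_co.IPSetsNotExpanding

open Filter Topology Pointwise

/-- `FS(x)`: the sums of finitely many (at least one) terms with distinct indices. -/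
def FS (x : ℕ → ℕ) : Set ℤ :=
  {s | ∃ F : Finset ℕ, F.Nonempty ∧ s = ∑ i ∈ F, (x i : ℤ)}

/-- The Bohr set `B(α₁, …, α_k; η) = {b : |exp(2πi α_j b) - 1| < η for all j}`. -/
def bohr {k : ℕ} (α : Fin k → ℝ) (η : ℝ) : Set ℤ :=
  {b | ∀ j, ‖Complex.exp (2 * Real.pi * Complex.I * α j * b) - 1‖ < η}

/-- The largest number of elements of `A` in an interval `{M+1, …, M+N}`. -/
noncomputable def maxCount (A : Set ℤ) (N : ℕ) : ℝ :=
  ⨆ M : ℤ, ((A ∩ Set.Icc (M + 1) (M + N)).ncard : ℝ)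

/-- The upper Banach density `d*(A) = lim_N sup_M |A ∩ {M+1, …, M+N}| / N`. -/
noncomputable def upperBanachDensity (A : Set ℤ) : ℝ :=
  limUnder atTop fun N : ℕ => maxCount A N / N

/-- `S` is `(𝒟, ℬ)`-expanding: `A - A + S` contains a Bohr set whenever `d*(A) > 0`. -/
def IsExpanding (S : Set ℤ) : Prop :=
  ∀ A : Set ℤ, 0 < upperBanachDensity A →
    ∃ (k : ℕ) (α : Fin k → ℝ) (η : ℝ), 0 < η ∧ bohr α η ⊆ A - A + S

theorem ncard_le (A : Set ℤ) (M : ℤ) (N : ℕ) :
    ((A ∩ Set.Icc (M + 1) (M + N)).ncard : ℝ) ≤ N := by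
  have h : (A ∩ Set.Icc (M + 1) (M + N)).ncard ≤ (Set.Icc (M + 1) (M + (N : ℤ))).ncard :=
    Set.ncard_le_ncard Set.inter_subset_right (Set.finite_Icc _ _)
  have h2 : (Set.Icc (M + 1) (M + (N : ℤ))).ncard = N := by
    rw [← Finset.coe_Icc, Set.ncard_coe_finset, Int.card_Icc]
    omega
  rw [h2] at h
  exact_mod_cast h

theorem bdd (A : Set ℤ) (N : ℕ) :
    BddAbove (Set.range fun M : ℤ => ((A ∩ Set.Icc (M + 1) (M + N)).ncard : ℝ)) :=
  ⟨N, by rintro _ ⟨M, rfl⟩; exact ncard_le A M N⟩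

theorem le_maxCount (A : Set ℤ) (M : ℤ) (N : ℕ) :
    ((A ∩ Set.Icc (M + 1) (M + N)).ncard : ℝ) ≤ maxCount A N :=
  le_ciSup (bdd A N) M

theorem maxCount_nonneg (A : Set ℤ) (N : ℕ) : 0 ≤ maxCount A N :=
  le_trans (Nat.cast_nonneg _) (le_maxCount A 0 N)

theorem subadd (A : Set ℤ) : Subadditive (maxCount A) := by
  intro N N'
  apply ciSup_le
  intro M
  have hsub : A ∩ Set.Icc (M + 1) (M + ((N + N' : ℕ) : ℤ)) ⊆
      (A ∩ Set.Icc (M + 1) (M + N)) ∪ (A ∩ Set.Icc ((M + N) + 1) ((M + N) + N')) := by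
    rintro z ⟨hz, hz2⟩
    rw [Set.mem_Icc] at hz2
    push_cast at hz2
    by_cases h : z ≤ M + N
    · left; exact ⟨hz, hz2.1, h⟩
    · right; exact ⟨hz, by omega, by omega⟩
  have hfin : ((A ∩ Set.Icc (M + 1) (M + N)) ∪
      (A ∩ Set.Icc ((M + N) + 1) ((M + N) + (N' : ℤ)))).Finite :=
    ((Set.finite_Icc _ _).inter_of_right _).union ((Set.finite_Icc _ _).inter_of_right _)
  have h1 := (Set.ncard_le_ncard hsub hfin).trans (Set.ncard_union_le _ _)
  have h2 : ((A ∩ Set.Icc (M + 1) (M + ((N + N' : ℕ) : ℤ))).ncard : ℝ) ≤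
      ((A ∩ Set.Icc (M + 1) (M + N)).ncard : ℝ) +
        ((A ∩ Set.Icc ((M + N) + 1) ((M + N) + (N' : ℤ))).ncard : ℝ) := by
    exact_mod_cast h1
  exact h2.trans (add_le_add (le_maxCount A M N) (le_maxCount A (M + N) N'))

/-- The limit in the definition of the upper Banach density exists for every set. -/
theorem tendsto_density (A : Set ℤ) :
    Tendsto (fun N : ℕ => maxCount A N / N) atTop (𝓝 (upperBanachDensity A)) := by
  have h : Tendsto (fun N : ℕ => maxCount A N / N) atTop (𝓝 (subadd A).lim) := by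
    apply (subadd A).tendsto_lim
    refine ⟨0, ?_⟩
    rintro _ ⟨N, rfl⟩
    exact div_nonneg (maxCount_nonneg A N) (Nat.cast_nonneg _)
  exact tendsto_nhds_limUnder ⟨_, h⟩

/-- **Main theorem.** There is a strictly increasing sequence `x` of positive integers such that
`FS(x)` is not `(𝒟, ℬ)`-expanding: for some set `A` of positive integers or zero with upper Banach
density (a limit that exists) at least `1/4`, the set `A - A + FS(x)` contains no Bohr set. -/
theorem result : ∃ x : ℕ → ℕ, (∀ n, 0 < x n) ∧ StrictMono x ∧ ¬ IsExpanding (FS x) ∧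
    ∃ A : Set ℤ, (∀ a ∈ A, 0 ≤ a) ∧
      Tendsto (fun N : ℕ => maxCount A N / N) atTop (𝓝 (upperBanachDensity A)) ∧
      1 / 4 ≤ upperBanachDensity A ∧
      ∀ (k : ℕ) (α : Fin k → ℝ) (η : ℝ), 0 < η → ¬ (bohr α η ⊆ A - A + FS x) := by
  classical
  have hmono : StrictMono fun i => Q265.IP.q (Q265.IP.N i) := by
    apply strictMono_nat_of_lt_succ
    intro i
    have h1 := Q265.IP.N_lt i
    have h2 := Q265.IP.q_mono (Nat.succ_le_of_lt h1)
    have h3 := Q265.IP.two_mul_q_le (Q265.IP.N i)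
    have h4 := Q265.IP.q_pos (Q265.IP.N i)
    simp only [Nat.succ_eq_add_one] at h2
    omega
  have hfreq : ∃ c, ∃ᶠ J in atTop, Q265.IP.q (Q265.IP.N J) ≤
      4 * (Q265.IP.AA c ∩ Set.Iio (Q265.IP.q (Q265.IP.N J))).ncard := by
    by_contra hcon
    push Not at hcon
    have h0 := hcon 0
    have h1 := hcon 1
    obtain ⟨J, hJ0, hJ1⟩ := (h0.and h1).exists
    obtain ⟨c, hc, hc2⟩ := Q265.IP.count_AA J
    interval_cases c
    · exact absurd hc2 (not_le.2 hJ0)
    · exact absurd hc2 (not_le.2 hJ1)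
  obtain ⟨c, hc⟩ := hfreq
  set A : Set ℤ := (fun n : ℕ => (n : ℤ)) '' Q265.IP.AA c with hA
  have hdens : 1 / 4 ≤ upperBanachDensity A := by
    by_contra hlt
    push Not at hlt
    have hev := (tendsto_density A).eventually (gt_mem_nhds hlt)
    have hev2 := hmono.tendsto_atTop.eventually hev
    obtain ⟨J, hJ1, hJ2⟩ := (hc.and_eventually hev2).exists
    have hcount : ((Q265.IP.AA c ∩ Set.Iio (Q265.IP.q (Q265.IP.N J))).ncard : ℝ) ≤
        maxCount A (Q265.IP.q (Q265.IP.N J)) := by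
      refine le_trans ?_ (le_maxCount A (-1) _)
      have : (Q265.IP.AA c ∩ Set.Iio (Q265.IP.q (Q265.IP.N J))).ncard =
          (A ∩ Set.Icc (-1 + 1) (-1 + ((Q265.IP.q (Q265.IP.N J) : ℕ) : ℤ))).ncard := by
        rw [← Set.ncard_image_of_injective (Q265.IP.AA c ∩ Set.Iio (Q265.IP.q (Q265.IP.N J)))
          (f := fun n : ℕ => (n : ℤ)) (fun _ _ h => Nat.cast_injective h)]
        congr 1
        ext z
        simp only [Set.mem_image, Set.mem_inter_iff, Set.mem_Iio, Set.mem_Icc, hA]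
        constructor
        · rintro ⟨n, ⟨h1, h2⟩, rfl⟩
          refine ⟨⟨n, h1, rfl⟩, by omega, by omega⟩
        · rintro ⟨⟨n, h1, rfl⟩, h2, h3⟩
          exact ⟨n, ⟨h1, by omega⟩, rfl⟩
      rw [this]
    have hpos : (0 : ℝ) < (Q265.IP.q (Q265.IP.N J) : ℕ) := by
      exact_mod_cast Q265.IP.q_pos _
    rw [div_lt_iff₀ hpos] at hJ2
    have hJ1' : ((Q265.IP.q (Q265.IP.N J) : ℕ) : ℝ) ≤
        4 * ((Q265.IP.AA c ∩ Set.Iio (Q265.IP.q (Q265.IP.N J))).ncard : ℝ) := by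
      exact_mod_cast hJ1
    linarith
  have hmain : ∀ (k : ℕ) (α : Fin k → ℝ) (η : ℝ), 0 < η →
      ¬ (bohr α η ⊆ A - A + FS fun i => Q265.IP.q (Q265.IP.N i)) := by
    intro k α η hη hsub
    obtain ⟨C0, hC0⟩ := Q265.IP.signs α hη
    obtain ⟨ε, h1, h0, hz, hb⟩ := hC0 (Q265.IP.blk C0) (fun l => (Q265.IP.hf l : ℤ))
    have hmem := hsub hb
    rw [Set.mem_add] at hmem
    obtain ⟨y, hy, s, hs, hys⟩ := hmem
    rw [Set.mem_sub] at hy
    obtain ⟨a, ha, a', ha', haa⟩ := hy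
    obtain ⟨F, _, rfl⟩ := hs
    obtain ⟨n, hn, rfl⟩ := ha
    obtain ⟨n', hn', rfl⟩ := ha'
    apply Q265.IP.avoid h1 h0 hz F hn hn'
    rw [← hys, ← haa]
  refine ⟨fun i => Q265.IP.q (Q265.IP.N i), fun n => Q265.IP.q_pos _, hmono, ?_, A, ?_,
    tendsto_density A, hdens, hmain⟩
  · intro hexp
    obtain ⟨k, α, η, hη, hsub⟩ := hexp A (by linarith)
    exact hmain k α η hη hsub
  · rintro _ ⟨n, _, rfl⟩
    positivity

end Pool.Agent.Results.MP_23b914_co.IPSetsNotExpanding
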